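import Mathlib
import Pool.Agent.Work.MP_345ef2_gt.Diag

/-!
# Finite test vectors
-/

set_option autoImplicit false

namespace MP345

open Finset

variable {n : ℕ}

namespace CoxData

variable (D : CoxData n)

/-- the vector with coordinates `c a` at the nodes `f a` -/
noncomputable def vec {k : ℕ} (f : Fin k → D.ι) (c : Fin k → ℝ) : D.ι → ℝ :=
  fun i => ∑ a, if f a = i then c a else 0

theorem sum_vec {k : ℕ} (f : Fin k → D.ι) (c : Fin k → ℝ) (F : D.ι → ℝ) :
    ∑ i, D.vec f c i * F i = ∑ a, c a * F (f a) := by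
  unfold vec
  simp only [Finset.sum_mul]
  rw [Finset.sum_comm]
  refine Finset.sum_congr rfl fun a _ => ?_
  rw [Finset.sum_eq_single (f a)]
  · rw [if_pos rfl]
  · intro j _ hj
    rw [if_neg (fun e => hj e.symm), zero_mul]
  · intro h'
    exact absurd (Finset.mem_univ _) h'

theorem bf_vec {k l : ℕ} (f : Fin k → D.ι) (c : Fin k → ℝ) (h : Fin l → D.ι) (d : Fin l → ℝ) :
    bf D.g (D.vec f c) (D.vec h d) = ∑ a, ∑ b, c a * d b * D.g (f a) (h b) := by
  unfold bf
  have h1 : ∀ i : D.ι, ∑ j, D.vec f c i * D.vec h d j * D.g i j =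
      D.vec f c i * ∑ b, d b * D.g i (h b) := by
    intro i
    rw [← D.sum_vec h d (fun j => D.g i j), Finset.mul_sum]
    exact Finset.sum_congr rfl fun j _ => by ring
  simp only [h1]
  rw [D.sum_vec f c (fun i => ∑ b, d b * D.g i (h b))]
  refine Finset.sum_congr rfl fun a _ => ?_
  rw [Finset.mul_sum]
  exact Finset.sum_congr rfl fun b _ => by ring

theorem bf_add_left (g : D.ι → D.ι → ℝ) (a b c : D.ι → ℝ) :
    bf g (a + b) c = bf g a c + bf g b c := by
  unfold bf
  rw [← Finset.sum_add_distrib]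
  refine Finset.sum_congr rfl fun i _ => ?_
  rw [← Finset.sum_add_distrib]
  refine Finset.sum_congr rfl fun j _ => ?_
  simp only [Pi.add_apply]
  ring

theorem bf_smul_left (g : D.ι → D.ι → ℝ) (t : ℝ) (a c : D.ι → ℝ) :
    bf g (t • a) c = t * bf g a c := by
  unfold bf
  rw [Finset.mul_sum]
  refine Finset.sum_congr rfl fun i _ => ?_
  rw [Finset.mul_sum]
  refine Finset.sum_congr rfl fun j _ => ?_
  simp only [Pi.smul_apply, smul_eq_mul]
  ring

theorem bf_comm (a c : D.ι → ℝ) : bf D.g a c = bf D.g c a := by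
  unfold bf
  rw [Finset.sum_comm]
  refine Finset.sum_congr rfl fun i _ => Finset.sum_congr rfl fun j _ => ?_
  rw [D.symm j i]
  ring

/-- two negative directions are impossible -/
theorem no_two_neg {u v : D.ι → ℝ} (hu : qf D.g u < 0)
    (h : bf D.g u v ^ 2 < qf D.g u * qf D.g v) : False := by
  set b := bf D.g u v with hb
  set q := qf D.g u with hq
  set t := -(b / q) with ht
  have hq0 : q ≠ 0 := hu.ne
  have h1 : bf D.g u (v + t • u) = 0 := by
    rw [D.bf_comm, D.bf_add_left, D.bf_smul_left, D.bf_comm v u]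
    change b + t * q = 0
    rw [ht]
    field_simp
    ring
  have h2 := D.sig u (v + t • u) hu h1
  have h3 : qf D.g (v + t • u) = qf D.g v - b ^ 2 / q := by
    unfold qf
    rw [D.bf_add_left, D.bf_smul_left, h1, mul_zero, add_zero, D.bf_comm, D.bf_add_left,
      D.bf_smul_left]
    change qf D.g v + t * b = qf D.g v - b ^ 2 / q
    rw [ht]
    field_simp
    ring
  rw [h3] at h2
  have h4 : q * (qf D.g v - b ^ 2 / q) ≤ 0 := mul_nonpos_of_nonpos_of_nonneg hu.le h2
  have h5 : q * (qf D.g v - b ^ 2 / q) = q * qf D.g v - b ^ 2 := by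
    field_simp
  linarith

/-- a test vector with nodes in a positive definite set -/
theorem pd_vec {S : Finset D.ι} (hS : PD D.g S) {k : ℕ} (f : Fin k → D.ι) (c : Fin k → ℝ)
    (hf : Function.Injective f) (hfS : ∀ a, f a ∈ S) (hc : ∃ a, c a ≠ 0) :
    0 < ∑ a, ∑ b, c a * c b * D.g (f a) (f b) := by
  have hval : ∀ a, D.vec f c (f a) = c a := by
    intro a
    unfold vec
    rw [Finset.sum_eq_single a]
    · rw [if_pos rfl]
    · intro b _ hb
      rw [if_neg (fun e => hb (hf e))]
    · intro h'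
      exact absurd (Finset.mem_univ _) h'
  have h1 := hS (D.vec f c) (by
    intro i hi
    unfold vec
    refine Finset.sum_eq_zero fun a _ => ?_
    rw [if_neg]
    intro e
    exact hi (e ▸ hfS a)) (by
    obtain ⟨a, ha⟩ := hc
    intro h0
    exact ha (by rw [← hval a, h0]; rfl))
  unfold qf at h1
  rwa [D.bf_vec] at h1

end CoxData

end MP345
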