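import Mathlib
import Pool.Agent.Work.MP_345ef2_gt_helper54.Vec

/-!
# Exclusions by the signature: two disjoint Lanner sets joined by one edge of label 3
-/

set_option autoImplicit false

namespace MP345

open Finset

variable {n : ℕ}

namespace CoxData

variable (D : CoxData n)

/-- `L` and `M` are joined by exactly one edge of label `3`, from `f a` to `h b` -/
def OneEdge {k l : ℕ} (f : Fin k → D.ι) (h : Fin l → D.ι) (a : Fin k) (b : Fin l) : Prop :=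
  D.g (f a) (h b) = -1 / 2 ∧ ∀ a' b', ¬ (a' = a ∧ b' = b) → D.g (f a') (h b') = 0

theorem bf_oneEdge {k l : ℕ} {f : Fin k → D.ι} {h : Fin l → D.ι} {a : Fin k} {b : Fin l}
    (he : D.OneEdge f h a b) (c : Fin k → ℝ) (d : Fin l → ℝ) :
    bf D.g (D.vec f c) (D.vec h d) = -(c a * d b) / 2 := by
  rw [D.bf_vec, Finset.sum_eq_single a, Finset.sum_eq_single b]
  · rw [he.1]; ring
  · intro b' _ hb'
    rw [he.2 a b' (fun e => hb' e.2), mul_zero]
  · intro h'; exact absurd (Finset.mem_univ _) h'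
  · intro a' _ ha'
    refine Finset.sum_eq_zero fun b' _ => ?_
    rw [he.2 a' b' (fun e => ha' e.1), mul_zero]
  · intro h'; exact absurd (Finset.mem_univ _) h'

/-- exclusion with bounds for the two forms -/
theorem oneEdge_false {k l : ℕ} {f : Fin k → D.ι} {h : Fin l → D.ι} {a : Fin k} {b : Fin l}
    (he : D.OneEdge f h a b) (c : Fin k → ℝ) (d : Fin l → ℝ) (hca : c a = 1) (hdb : d b = 1)
    {A B : ℝ} (hA : 0 < A) (hB : 0 < B) (hAB : 1 / 4 < A * B)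
    (h1 : ∑ x, ∑ y, c x * c y * D.g (f x) (f y) ≤ -A)
    (h2 : ∑ x, ∑ y, d x * d y * D.g (h x) (h y) ≤ -B) : False := by
  have e1 : qf D.g (D.vec f c) ≤ -A := by
    unfold qf; rw [D.bf_vec]; exact h1
  have e2 : qf D.g (D.vec h d) ≤ -B := by
    unfold qf; rw [D.bf_vec]; exact h2
  refine D.no_two_neg (u := D.vec f c) (v := D.vec h d) (by linarith) ?_
  rw [D.bf_oneEdge he, hca, hdb]
  nlinarith

theorem cos5_ge : (0.809 : ℝ) ≤ Real.cos (Real.pi / 5) := by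
  rw [Real.cos_pi_div_five]
  have : (2.236 : ℝ) ≤ √5 := by
    apply Real.le_sqrt_of_sq_le
    norm_num
  linarith

theorem cos7_ge {m : ℕ} (hm : 7 ≤ m) : (0.8992 : ℝ) ≤ Real.cos (Real.pi / m) := by
  have h1 := Real.one_sub_sq_div_two_le_cos (x := Real.pi / m)
  have hm' : (7 : ℝ) ≤ m := by exact_mod_cast hm
  have h2 : Real.pi / m ≤ 3.1416 / 7 := by
    apply div_le_div₀ (by norm_num) Real.pi_lt_d4.le (by norm_num) hm'
  have h3 : 0 ≤ Real.pi / m := by positivity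
  nlinarith

theorem cos4_ge : (0.7 : ℝ) ≤ Real.cos (Real.pi / 4) := by
  rw [Real.cos_pi_div_four]
  have : (1.4 : ℝ) ≤ √2 := by
    apply Real.le_sqrt_of_sq_le
    norm_num
  linarith

/-- fork `[5,3,3^{1,1}]`: nodes u v w p q -/
theorem form_fork {f : Fin 5 → D.ι} (hf : Function.Injective f)
    (h01 : D.g (f 0) (f 1) = -Real.cos (Real.pi / 5))
    (h12 : D.g (f 1) (f 2) = -1 / 2)
    (h23 : D.g (f 2) (f 3) = -1 / 2)
    (h24 : D.g (f 2) (f 4) = -1 / 2)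
    : ∑ x, ∑ y, (![9, 11, 8, 1, 4] : Fin 5 → ℝ) x * (![9, 11, 8, 1, 4] : Fin 5 → ℝ) y * D.g (f x) (f y) ≤ -5 := by
  have h5 := cos5_ge
  have h4 := cos4_ge
  have d0 := D.self (f 0)
  have s10 := D.symm (f 1) (f 0)
  have s20 := D.symm (f 2) (f 0)
  have z02 : D.g (f 0) (f 2) ≤ 0 := D.g_nonpos (hf.ne (by decide))
  have s30 := D.symm (f 3) (f 0)
  have z03 : D.g (f 0) (f 3) ≤ 0 := D.g_nonpos (hf.ne (by decide))
  have s40 := D.symm (f 4) (f 0)
  have z04 : D.g (f 0) (f 4) ≤ 0 := D.g_nonpos (hf.ne (by decide))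
  have d1 := D.self (f 1)
  have s21 := D.symm (f 2) (f 1)
  have s31 := D.symm (f 3) (f 1)
  have z13 : D.g (f 1) (f 3) ≤ 0 := D.g_nonpos (hf.ne (by decide))
  have s41 := D.symm (f 4) (f 1)
  have z14 : D.g (f 1) (f 4) ≤ 0 := D.g_nonpos (hf.ne (by decide))
  have d2 := D.self (f 2)
  have s32 := D.symm (f 3) (f 2)
  have s42 := D.symm (f 4) (f 2)
  have d3 := D.self (f 3)
  have s43 := D.symm (f 4) (f 3)
  have z34 : D.g (f 3) (f 4) ≤ 0 := D.g_nonpos (hf.ne (by decide))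
  have d4 := D.self (f 4)
  simp only [Fin.sum_univ_five]
  simp [Matrix.cons_val_zero, Matrix.cons_val_one]
  rw [s10, s20, s30, s40, s21, s31, s41, s32, s42, s43]
  rw [d0, d1, d2, d3, d4, h01, h12, h23, h24]
  nlinarith

/-- path of order 3 with labels 3, k -/
theorem form_N3 {f : Fin 3 → D.ι} (hf : Function.Injective f)
    (h01 : D.g (f 0) (f 1) = -1 / 2)
    (h12 : ∃ m : ℕ, 7 ≤ m ∧ D.g (f 1) (f 2) = -Real.cos (Real.pi / m))
    : ∑ x, ∑ y, (![1, (5 / 2), (5 / 2)] : Fin 3 → ℝ) x * (![1, (5 / 2), (5 / 2)] : Fin 3 → ℝ) y * D.g (f x) (f y) ≤ -(6 / 25) := by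
  obtain ⟨m, hm, h12⟩ := h12
  have hc := cos7_ge hm
  have h5 := cos5_ge
  have h4 := cos4_ge
  have d0 := D.self (f 0)
  have s10 := D.symm (f 1) (f 0)
  have s20 := D.symm (f 2) (f 0)
  have z02 : D.g (f 0) (f 2) ≤ 0 := D.g_nonpos (hf.ne (by decide))
  have d1 := D.self (f 1)
  have s21 := D.symm (f 2) (f 1)
  have d2 := D.self (f 2)
  simp only [Fin.sum_univ_three]
  simp [Matrix.cons_val_zero, Matrix.cons_val_one]
  rw [s10, s20, s21]
  rw [d0, d1, d2, h01, h12]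
  nlinarith

/-- path `[3,5,3]` -/
theorem form_353 {f : Fin 4 → D.ι} (hf : Function.Injective f)
    (h01 : D.g (f 0) (f 1) = -1 / 2)
    (h12 : D.g (f 1) (f 2) = -Real.cos (Real.pi / 5))
    (h23 : D.g (f 2) (f 3) = -1 / 2)
    : ∑ x, ∑ y, (![1, 4, 4, 2] : Fin 4 → ℝ) x * (![1, 4, 4, 2] : Fin 4 → ℝ) y * D.g (f x) (f y) ≤ -(4 / 5) := by
  have h5 := cos5_ge
  have h4 := cos4_ge
  have d0 := D.self (f 0)
  have s10 := D.symm (f 1) (f 0)
  have s20 := D.symm (f 2) (f 0)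
  have z02 : D.g (f 0) (f 2) ≤ 0 := D.g_nonpos (hf.ne (by decide))
  have s30 := D.symm (f 3) (f 0)
  have z03 : D.g (f 0) (f 3) ≤ 0 := D.g_nonpos (hf.ne (by decide))
  have d1 := D.self (f 1)
  have s21 := D.symm (f 2) (f 1)
  have s31 := D.symm (f 3) (f 1)
  have z13 : D.g (f 1) (f 3) ≤ 0 := D.g_nonpos (hf.ne (by decide))
  have d2 := D.self (f 2)
  have s32 := D.symm (f 3) (f 2)
  have d3 := D.self (f 3)
  simp only [Fin.sum_univ_four]
  simp [Matrix.cons_val_zero, Matrix.cons_val_one]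
  rw [s10, s20, s30, s21, s31, s32]
  rw [d0, d1, d2, d3, h01, h12, h23]
  nlinarith

/-- star: t z e m -/
theorem form_star {f : Fin 4 → D.ι} (hf : Function.Injective f)
    (h01 : D.g (f 0) (f 1) = -1 / 2)
    (h12 : D.g (f 1) (f 2) = -Real.cos (Real.pi / 5))
    (h13 : D.g (f 1) (f 3) = -1 / 2)
    : ∑ x, ∑ y, (![1, 5, 4, 3] : Fin 4 → ℝ) x * (![1, 5, 4, 3] : Fin 4 → ℝ) y * D.g (f x) (f y) ≤ -1 := by
  have h5 := cos5_ge
  have h4 := cos4_ge
  have d0 := D.self (f 0)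
  have s10 := D.symm (f 1) (f 0)
  have s20 := D.symm (f 2) (f 0)
  have z02 : D.g (f 0) (f 2) ≤ 0 := D.g_nonpos (hf.ne (by decide))
  have s30 := D.symm (f 3) (f 0)
  have z03 : D.g (f 0) (f 3) ≤ 0 := D.g_nonpos (hf.ne (by decide))
  have d1 := D.self (f 1)
  have s21 := D.symm (f 2) (f 1)
  have s31 := D.symm (f 3) (f 1)
  have d2 := D.self (f 2)
  have s32 := D.symm (f 3) (f 2)
  have z23 : D.g (f 2) (f 3) ≤ 0 := D.g_nonpos (hf.ne (by decide))
  have d3 := D.self (f 3)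
  simp only [Fin.sum_univ_four]
  simp [Matrix.cons_val_zero, Matrix.cons_val_one]
  rw [s10, s20, s30, s21, s31, s32]
  rw [d0, d1, d2, d3, h01, h12, h13]
  nlinarith

/-- path `[5,3,3,3]` -/
theorem form_A {f : Fin 5 → D.ι} (hf : Function.Injective f)
    (h01 : D.g (f 0) (f 1) = -Real.cos (Real.pi / 5))
    (h12 : D.g (f 1) (f 2) = -1 / 2)
    (h23 : D.g (f 2) (f 3) = -1 / 2)
    (h34 : D.g (f 3) (f 4) = -1 / 2)
    : ∑ x, ∑ y, (![11, 14, 9, 5, 1] : Fin 5 → ℝ) x * (![11, 14, 9, 5, 1] : Fin 5 → ℝ) y * D.g (f x) (f y) ≤ -1 := by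
  have h5 := cos5_ge
  have h4 := cos4_ge
  have d0 := D.self (f 0)
  have s10 := D.symm (f 1) (f 0)
  have s20 := D.symm (f 2) (f 0)
  have z02 : D.g (f 0) (f 2) ≤ 0 := D.g_nonpos (hf.ne (by decide))
  have s30 := D.symm (f 3) (f 0)
  have z03 : D.g (f 0) (f 3) ≤ 0 := D.g_nonpos (hf.ne (by decide))
  have s40 := D.symm (f 4) (f 0)
  have z04 : D.g (f 0) (f 4) ≤ 0 := D.g_nonpos (hf.ne (by decide))
  have d1 := D.self (f 1)
  have s21 := D.symm (f 2) (f 1)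
  have s31 := D.symm (f 3) (f 1)
  have z13 : D.g (f 1) (f 3) ≤ 0 := D.g_nonpos (hf.ne (by decide))
  have s41 := D.symm (f 4) (f 1)
  have z14 : D.g (f 1) (f 4) ≤ 0 := D.g_nonpos (hf.ne (by decide))
  have d2 := D.self (f 2)
  have s32 := D.symm (f 3) (f 2)
  have s42 := D.symm (f 4) (f 2)
  have z24 : D.g (f 2) (f 4) ≤ 0 := D.g_nonpos (hf.ne (by decide))
  have d3 := D.self (f 3)
  have s43 := D.symm (f 4) (f 3)
  have d4 := D.self (f 4)
  simp only [Fin.sum_univ_five]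
  simp [Matrix.cons_val_zero, Matrix.cons_val_one]
  rw [s10, s20, s30, s40, s21, s31, s41, s32, s42, s43]
  rw [d0, d1, d2, d3, d4, h01, h12, h23, h34]
  nlinarith

/-- cycle `(4,3,3,3,3)` -/
theorem form_C4 {f : Fin 5 → D.ι} (hf : Function.Injective f)
    (h01 : D.g (f 0) (f 1) = -Real.cos (Real.pi / 4))
    (h12 : D.g (f 1) (f 2) = -1 / 2)
    (h23 : D.g (f 2) (f 3) = -1 / 2)
    (h34 : D.g (f 3) (f 4) = -1 / 2)
    (h04 : D.g (f 0) (f 4) = -1 / 2)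
    : ∑ x, ∑ y, (![6, 6, 3, 1, 3] : Fin 5 → ℝ) x * (![6, 6, 3, 1, 3] : Fin 5 → ℝ) y * D.g (f x) (f y) ≤ -1 := by
  have h5 := cos5_ge
  have h4 := cos4_ge
  have d0 := D.self (f 0)
  have s10 := D.symm (f 1) (f 0)
  have s20 := D.symm (f 2) (f 0)
  have z02 : D.g (f 0) (f 2) ≤ 0 := D.g_nonpos (hf.ne (by decide))
  have s30 := D.symm (f 3) (f 0)
  have z03 : D.g (f 0) (f 3) ≤ 0 := D.g_nonpos (hf.ne (by decide))
  have s40 := D.symm (f 4) (f 0)
  have d1 := D.self (f 1)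
  have s21 := D.symm (f 2) (f 1)
  have s31 := D.symm (f 3) (f 1)
  have z13 : D.g (f 1) (f 3) ≤ 0 := D.g_nonpos (hf.ne (by decide))
  have s41 := D.symm (f 4) (f 1)
  have z14 : D.g (f 1) (f 4) ≤ 0 := D.g_nonpos (hf.ne (by decide))
  have d2 := D.self (f 2)
  have s32 := D.symm (f 3) (f 2)
  have s42 := D.symm (f 4) (f 2)
  have z24 : D.g (f 2) (f 4) ≤ 0 := D.g_nonpos (hf.ne (by decide))
  have d3 := D.self (f 3)
  have s43 := D.symm (f 4) (f 3)
  have d4 := D.self (f 4)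
  simp only [Fin.sum_univ_five]
  simp [Matrix.cons_val_zero, Matrix.cons_val_one]
  rw [s10, s20, s30, s40, s21, s31, s41, s32, s42, s43]
  rw [d0, d1, d2, d3, d4, h01, h12, h23, h34, h04]
  nlinarith

end CoxData

end MP345
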